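import Mathlib
import Pool.Agent.R522.Spec.Num

/-!
# The Beck–Fiala problem for set systems with few large singular values

There is an absolute constant `C` with the following properties. Let `S_1, …, S_m` be subsets of
`[n]` of maximum degree at most `t`.

(1) Let `E ⊆ [m]`, let `A` be a real `m × n` matrix and let `b_i ≥ 0`, with `b_i A_ij ≥ 1` for
`j ∈ S_i` and `b_i A_ij ≥ 0` for all `j`, for all `i ∉ E`. Let `λ > 0` and let `κ` be the sum of the
eigenvalues of `Aᵀ A` which are greater than `λ²`, divided by `λ²`. Then there is a colouring `χ`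
with `|χ (S_i)| ≤ C (√t + (1 + log t)^(3/2) √(log (2 + κ + |E|))) + 4 λ b_i` for all `i`.

(2) Let `T_1, …, T_m` be subsets of `[n]` of maximum degree at most `t` with at most `r` elements
each, such that at most `N` singular values of the incidence matrix of the `T_i` are greater than
`K √t`, where `K ≥ 1`. If `S_i ⊆ T_i` for all `i` outside a set of `q` indices, then the
discrepancy of the `S_i` is at most
`C (K √t + (1 + log t)^(3/2) √(log (2 + q + min (N r) n)))`, which is at most `C K √t` if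
`q + min (N r) n ≤ exp (t / (1 + log t)^3)`.

The numbers of elements and sets are arbitrary.

Proof of (1). Let `u_k` be orthonormal eigenvectors of `Aᵀ A` for the eigenvalues `μ_k`, and give
the element `j` the weight `p_j = ∑_{μ_k > λ²} μ_k u_k (j)²`, of total `κ λ²`. By Cauchy–Schwarz
`‖A 1_X‖² ≤ |X| (λ² + p (X))` for all `X ⊆ [n]`. So if `p (X) ≤ p ([n]) / (2 + κ)`, at most
`|X| / 2` rows have `(A 1_X)_i > 2 λ`. A theorem of Bansal and Jiang (weighted form in the starting
library) gives a fractional colouring with such a set `X` of fractional elements; it can be moved,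
keeping the sums of all sets with indices in `E` and of all sets with a trace above `2 λ b_i`,
until at most `2 |E|` elements are fractional.
-/

set_option autoImplicit false

namespace Pool.Agent.Results.MP_e8ee11_co.FewLargeSingularValues

open Finset Pool.Agent.R522.Spec

/-- The sum of the eigenvalues of `Aᵀ A` (the squares of the singular values of `A`) which are
greater than `lam ^ 2`, divided by `lam ^ 2`. -/
noncomputable def excess {m n : ℕ} (A : Matrix (Fin m) (Fin n) ℝ) (lam : ℝ) : ℝ :=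
  (∑ k ∈ univ.filter (fun k =>
    lam ^ 2 < (Matrix.isHermitian_conjTranspose_mul_self A).eigenvalues k),
      (Matrix.isHermitian_conjTranspose_mul_self A).eigenvalues k) / lam ^ 2

/-- The incidence matrix. -/
def incidence {m n : ℕ} (S : Fin m → Finset (Fin n)) : Matrix (Fin m) (Fin n) ℝ :=
  fun i j => if j ∈ S i then 1 else 0

theorem excess_eq {m n : ℕ} (A : Matrix (Fin m) (Fin n) ℝ) (lam : ℝ) :
    excess A lam = exc A (lam ^ 2) := by
  unfold excess exc ev
  rw [Finset.sum_div]

theorem toInt {m n : ℕ} (S : Fin m → Finset (Fin n)) (B : Fin m → ℝ)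
    (h : ∃ χ : Fin n → ℝ, (∀ j, χ j = 1 ∨ χ j = -1) ∧ ∀ i, |∑ j, incidence S i j * χ j| ≤ B i) :
    ∃ χ : Fin n → ℤ, (∀ j, χ j = 1 ∨ χ j = -1) ∧
      ∀ i, |((∑ j ∈ S i, χ j : ℤ) : ℝ)| ≤ B i := by
  classical
  obtain ⟨χ, h1, h2⟩ := h
  refine ⟨fun j => if χ j = 1 then 1 else -1, fun j => by dsimp only; split_ifs <;> simp,
    fun i => ?_⟩
  have hχ : ∀ j, (((if χ j = 1 then 1 else -1 : ℤ)) : ℝ) = χ j := by
    intro j
    rcases h1 j with h | h
    · simp [h]
    · rw [if_neg (by rw [h]; norm_num), h]; norm_num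
  have e2 : (((∑ j ∈ S i, (if χ j = 1 then 1 else -1 : ℤ)) : ℤ) : ℝ) =
      ∑ j, incidence S i j * χ j := by
    rw [Int.cast_sum]
    simp only [hχ, incidence, ite_mul, one_mul, zero_mul]
    rw [← Finset.sum_filter]
    exact Finset.sum_congr (by ext j; simp) fun j _ => rfl
  rw [e2]
  exact h2 i

theorem incidence_col {m n t : ℕ} (S : Fin m → Finset (Fin n))
    (hdeg : ∀ j, (univ.filter (fun i => j ∈ S i)).card ≤ t) (j : Fin n) :
    ∑ i, incidence S i j ^ 2 ≤ (t : ℝ) := by
  have e : ∑ i, incidence S i j ^ 2 = ((univ.filter (fun i => j ∈ S i)).card : ℝ) := by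
    rw [Finset.card_filter]
    push_cast
    refine sum_congr rfl fun i _ => ?_
    unfold incidence
    split_ifs <;> simp
  rw [e]
  exact_mod_cast hdeg j

theorem bound {m n t : ℕ} (S : Fin m → Finset (Fin n)) (ht : 1 ≤ t)
    (hdeg : ∀ j, (univ.filter (fun i => j ∈ S i)).card ≤ t) (E : Finset (Fin m))
    (A : Matrix (Fin m) (Fin n) ℝ) (b : Fin m → ℝ) (lam : ℝ) (hlam : 0 < lam)
    (hb : ∀ i, 0 ≤ b i) (h0 : ∀ i, i ∉ E → ∀ j, 0 ≤ b i * A i j)
    (h1 : ∀ i, i ∉ E → ∀ j ∈ S i, 1 ≤ b i * A i j) :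
    ∃ χ : Fin n → ℤ, (∀ j, χ j = 1 ∨ χ j = -1) ∧
      ∀ i, |((∑ j ∈ S i, χ j : ℤ) : ℝ)| ≤
        5000000 * err t (Real.log (2 + exc A (lam ^ 2) + E.card)) + 4 * lam * b i := by
  classical
  refine toInt S _ (core (incidence S) t (by exact_mod_cast ht) ?_ (incidence_col S hdeg) E A b lam
    hb hlam ?_)
  · intro i j
    unfold incidence
    split_ifs <;> simp
  · intro i hi j
    by_cases hj : j ∈ S i
    · have := h1 i hi j hj
      simpa [incidence, hj] using this
    · have := h0 i hi j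
      simpa [incidence, hj] using this

theorem result : ∃ C : ℝ,
    (∀ (m n t : ℕ) (S : Fin m → Finset (Fin n)), 1 ≤ t →
      (∀ j, (univ.filter (fun i => j ∈ S i)).card ≤ t) →
      ∀ (E : Finset (Fin m)) (A : Matrix (Fin m) (Fin n) ℝ) (b : Fin m → ℝ) (lam : ℝ),
      0 < lam → (∀ i, 0 ≤ b i) → (∀ i, i ∉ E → ∀ j, 0 ≤ b i * A i j) →
      (∀ i, i ∉ E → ∀ j ∈ S i, 1 ≤ b i * A i j) →
      ∃ χ : Fin n → ℤ, (∀ j, χ j = 1 ∨ χ j = -1) ∧
        ∀ i, |((∑ j ∈ S i, χ j : ℤ) : ℝ)| ≤ C * (Real.sqrt t + (1 + Real.log t) ^ (3 / 2 : ℝ) *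
          Real.sqrt (Real.log (2 + excess A lam + E.card))) + 4 * lam * b i) ∧
    (∀ (m n t r N : ℕ) (S T : Fin m → Finset (Fin n)) (E : Finset (Fin m)) (K : ℝ), 1 ≤ t →
      1 ≤ K → (∀ j, (univ.filter (fun i => j ∈ S i)).card ≤ t) →
      (∀ j, (univ.filter (fun i => j ∈ T i)).card ≤ t) → (∀ i, (T i).card ≤ r) →
      (univ.filter (fun k => (K * Real.sqrt t) ^ 2 <
        (Matrix.isHermitian_conjTranspose_mul_self (incidence T)).eigenvalues k)).card ≤ N →
      (∀ i, i ∉ E → S i ⊆ T i) →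
      ∃ χ : Fin n → ℤ, (∀ j, χ j = 1 ∨ χ j = -1) ∧
        (∀ i, |((∑ j ∈ S i, χ j : ℤ) : ℝ)| ≤ C * (K * Real.sqrt t +
          (1 + Real.log t) ^ (3 / 2 : ℝ) *
            Real.sqrt (Real.log (2 + E.card + min (N * r : ℝ) n)))) ∧
        (E.card + min (N * r : ℝ) n ≤ Real.exp (t / (1 + Real.log t) ^ 3) →
          ∀ i, |((∑ j ∈ S i, χ j : ℤ) : ℝ)| ≤ C * (K * Real.sqrt t))) := by
  classical
  refine ⟨100000004, ?_, ?_⟩
  · intro m n t S ht hdeg E A b lam hlam hb h0 h1
    have htR : (1 : ℝ) ≤ t := by exact_mod_cast ht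
    obtain ⟨χ, h2, h3⟩ := bound S ht hdeg E A b lam hlam hb h0 h1
    refine ⟨χ, h2, fun i => (h3 i).trans ?_⟩
    have e1 := err_nonneg t (Real.log (2 + exc A (lam ^ 2) + E.card)) htR
    rw [excess_eq]
    have e2 : err t (Real.log (2 + exc A (lam ^ 2) + E.card)) =
        Real.sqrt t + (1 + Real.log t) ^ (3 / 2 : ℝ) *
          Real.sqrt (Real.log (2 + exc A (lam ^ 2) + E.card)) := rfl
    rw [← e2]
    linarith
  · intro m n t r N S T E K ht hK hdegS hdegT hr hN hST
    have htR : (1 : ℝ) ≤ t := by exact_mod_cast ht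
    have hst : 0 < Real.sqrt t := Real.sqrt_pos.2 (by linarith)
    have hst2 : Real.sqrt t ^ 2 = t := Real.sq_sqrt (by linarith)
    obtain ⟨χ, h2, h3⟩ := bound S ht hdegS E (incidence T) (fun _ => 1) (K * Real.sqrt t)
      (by positivity) (fun _ => zero_le_one) (fun i _ j => by
        unfold incidence; split_ifs <;> simp) (fun i hi j hj => by
        have := hST i hi hj
        simp [incidence, this])
    have e1 : (K * Real.sqrt t) ^ 2 = K ^ 2 * t := by rw [mul_pow, hst2]
    rw [e1] at h3 hN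
    have hex : exc (incidence T) (K ^ 2 * t) ≤ min (N * r : ℝ) n := by
      refine exc_le (incidence T) t K r N (by linarith) hK (incidence_col T hdegT) (fun i => ?_) hN
      refine (card_le_card fun j hj => ?_).trans (hr i)
      by_contra hc
      exact (mem_filter.1 hj).2 (by simp [incidence, hc])
    have hex0 := exc_nonneg (incidence T) (K ^ 2 * t) (by positivity)
    have hEc : (0 : ℝ) ≤ E.card := Nat.cast_nonneg _
    set M : ℝ := E.card + min (N * r : ℝ) n with hM
    have hM0 : 0 ≤ M := by linarith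
    have e5 : Real.sqrt t ≤ K * Real.sqrt t := by nlinarith
    have e6 : err t (Real.log (2 + exc (incidence T) (K ^ 2 * t) + E.card)) ≤
        err t (Real.log (2 + M)) := by
      rw [add_assoc]
      exact err_mono t htR (by linarith) (by linarith)
    refine ⟨χ, h2, fun i => (h3 i).trans ?_, fun hexp i => (h3 i).trans ?_⟩
    · have e7 : (2 : ℝ) + E.card + min (N * r : ℝ) n = 2 + M := by rw [hM]; ring
      rw [e7]
      have e8 : 0 ≤ (1 + Real.log (t : ℝ)) ^ (3 / 2 : ℝ) * Real.sqrt (Real.log (2 + M)) := by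
        have := Real.log_nonneg htR
        positivity
      unfold err at e6 ⊢
      nlinarith
    · have e4 := err_le t M htR hM0 hexp
      nlinarith

end Pool.Agent.Results.MP_e8ee11_co.FewLargeSingularValues
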