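import Pool.Agent.R814.Lam.Real
import Pool.Agent.Results.MP_e8ee11_co.ColouringsCount

/-!
# Beck–Fiala with exact cardinality constraints on a laminar family

Let `S_1, …, S_m` be subsets of `[n]` of maximum degree at most `t`, let `L` be a laminar family of
subsets of `[n]` (any two members are disjoint or nested), and let `x⁰ ∈ [0,1]^n` be arbitrary. We
look for a rounding `x ∈ {0,1}^n` with `|x(T) - x⁰(T)| < 1` for every `T ∈ L` (so `x(T) = x⁰(T)` if
`x⁰(T)` is an integer) and with `|x(S_i) - x⁰(S_i)|` small for all `i`. There is no relation between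
`L` and the sets `S_i`; the degrees of `L` are not bounded.

(1) There is always such a rounding with `|x(S_i) - x⁰(S_i)| ≤ 2 t` for all `i`.

(2) There is always such a rounding with
`|x(S_i) - x⁰(S_i)| ≤ C (√t + (1 + log t)^{3/2} √(log (1 + min m n)))`, `C` absolute, `t ≥ 1`.

(3) The Beck–Fiala conjecture holds if and only if there is a constant `c` such that there is
always such a rounding with `|x(S_i) - x⁰(S_i)| ≤ c √t` for all `i`.

Proof: binary digits; in each step the elements with an odd numerator are grouped into pairs which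
respect `L`, and a signing of the differences of the columns of the pairs is used.
-/

set_option autoImplicit false

namespace Pool.Agent.Results.MP_e8ee11_co.LaminarRounding

/-- Every element is in at most `t` of the sets `S_1, …, S_m`. -/
def DegreeLE {m n : ℕ} (S : Fin m → Finset (Fin n)) (t : ℕ) : Prop :=
  ∀ i, (Finset.univ.filter (fun j => i ∈ S j)).card ≤ t

/-- Some colouring has discrepancy at most `R`. -/
def HasColouring {m n : ℕ} (S : Fin m → Finset (Fin n)) (R : ℝ) : Prop :=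
  ∃ χ : Fin n → ℤ, (∀ i, χ i = 1 ∨ χ i = -1) ∧ ∀ j, ((|∑ i ∈ S j, χ i| : ℤ) : ℝ) ≤ R

/-- `L` is a laminar family: any two members are disjoint, or one of them contains the other. -/
def Laminar {n : ℕ} (L : Set (Finset (Fin n))) : Prop :=
  ∀ S ∈ L, ∀ T ∈ L, S ⊆ T ∨ T ⊆ S ∨ Disjoint S T

/-- The point `x₀ ∈ [0,1]^n` has a rounding `x ∈ {0,1}^n` for which `|x(T) - x₀(T)| < 1` for all
`T ∈ L` and `|x(S_j) - x₀(S_j)| ≤ R` for all `j`. -/
def HasRounding {m n : ℕ} (S : Fin m → Finset (Fin n)) (L : Set (Finset (Fin n)))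
    (x₀ : Fin n → ℝ) (R : ℝ) : Prop :=
  ∃ x : Fin n → ℝ, (∀ i, x i = 0 ∨ x i = 1) ∧ (∀ T ∈ L, |∑ i ∈ T, (x i - x₀ i)| < 1) ∧
    ∀ j, |∑ i ∈ S j, (x i - x₀ i)| ≤ R

/-- the columns which occur -/
def Col {m : ℕ} (t : ℕ) (w : Fin m → ℝ) : Prop :=
  (∀ j, w j = 0 ∨ w j = 1 ∨ w j = -1) ∧ ∑ j, |w j| ≤ 2 * t

theorem core {m n t : ℕ} (S : Fin m → Finset (Fin n)) (L : Set (Finset (Fin n)))
    (x₀ : Fin n → ℝ) (R : ℝ) (hS : DegreeLE S t) (hL : Laminar L)
    (hx : ∀ i, 0 ≤ x₀ i ∧ x₀ i ≤ 1)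
    (hR : Pool.Agent.R814.Lam.HasSignings n (Col (m := m) t) R) : HasRounding S L x₀ R := by
  classical
  have hcol : ∀ i, ∑ j, |if i ∈ S j then (1:ℝ) else 0| ≤ t := by
    intro i
    have h1 : ∀ j, |if i ∈ S j then (1:ℝ) else 0| = if i ∈ S j then (1:ℝ) else 0 := by
      intro j; split_ifs <;> simp
    simp_rw [h1]
    rw [← Finset.sum_filter, Finset.sum_const, nsmul_eq_mul, mul_one]
    exact_mod_cast hS i
  obtain ⟨x, hx1, hx2, hx3⟩ := Pool.Agent.R814.Lam.rounding (L := L) hL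
    (fun i j => if i ∈ S j then (1:ℝ) else 0) (Col (m := m) t) (fun i => by
      refine ⟨fun j => ?_, ?_⟩
      · by_cases h : i ∈ S j <;> simp [h]
      · have := hcol i
        have ht : (0:ℝ) ≤ t := by positivity
        linarith) (fun a b => by
      refine ⟨fun j => ?_, ?_⟩
      · by_cases h : a ∈ S j <;> by_cases h' : b ∈ S j <;> simp [h, h']
      · have h1 : ∀ j, |(if a ∈ S j then (1:ℝ) else 0) - (if b ∈ S j then (1:ℝ) else 0)| ≤
            |if a ∈ S j then (1:ℝ) else 0| + |if b ∈ S j then (1:ℝ) else 0| := fun j =>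
          abs_sub _ _
        refine (Finset.sum_le_sum fun j _ => h1 j).trans ?_
        rw [Finset.sum_add_distrib]
        have := hcol a
        have := hcol b
        linarith) R hR x₀ hx
  refine ⟨fun i => (x i : ℝ), fun i => ?_, hx2, fun j => ?_⟩
  · rcases hx1 i with h | h
    · left; simp [h]
    · right; simp [h]
  · have h := hx3 j
    simp only [mul_ite, mul_one, mul_zero] at h
    rw [← Finset.sum_filter, Finset.filter_mem_eq_inter, Finset.univ_inter] at h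
    exact h

theorem part1 (m n t : ℕ) (S : Fin m → Finset (Fin n)) (L : Set (Finset (Fin n)))
    (x₀ : Fin n → ℝ) (hS : DegreeLE S t) (hL : Laminar L) (hx : ∀ i, 0 ≤ x₀ i ∧ x₀ i ≤ 1) :
    HasRounding S L x₀ (2 * t) := by
  refine core S L x₀ _ hS hL hx fun k _ w hw => ?_
  obtain ⟨x, hx, hx2⟩ := H294BF.l1_signing (fun (j : Fin m) (i : Fin k) => w i j) (2 * t : ℝ)
    (by positivity) (fun i => (hw i).2)
  have hint : ∀ i, ∃ e : ℤ, (e = 1 ∨ e = -1) ∧ (e : ℝ) = x i := by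
    intro i
    rcases hx i with h | h
    · exact ⟨1, Or.inl rfl, by rw [h]; norm_num⟩
    · exact ⟨-1, Or.inr rfl, by rw [h]; norm_num⟩
  choose e he1 he2 using hint
  refine ⟨e, he1, fun j => ?_⟩
  refine le_trans (le_of_eq ?_) (hx2 j)
  congr 1
  refine Finset.sum_congr rfl fun i _ => ?_
  rw [he2 i]; ring

/-- signings of columns with entries `0, ± 1` -/
theorem stack {m k t : ℕ} (R : ℝ)
    (h : ∀ S : Fin (m + m) → Finset (Fin k), DegreeLE S (2 * t) → HasColouring S R)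
    (w : Fin k → Fin m → ℝ) (hw : ∀ i, Col t (w i)) :
    ∃ ε : Fin k → ℤ, (∀ i, ε i = 1 ∨ ε i = -1) ∧ ∀ j, |∑ i, (ε i : ℝ) * w i j| ≤ 2 * R := by
  classical
  set P : Fin m → Finset (Fin k) := fun j => Finset.univ.filter (fun i => w i j = 1) with hP
  set N : Fin m → Finset (Fin k) := fun j => Finset.univ.filter (fun i => w i j = -1) with hN
  obtain ⟨ε, hε, hεR⟩ := h (fun l => Fin.addCases P N l) (fun i => by
    have e1 : (Finset.univ.filter (fun l : Fin (m + m) =>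
        i ∈ (Fin.addCases P N l : Finset (Fin k)))).card =
        (Finset.univ.filter (fun j => i ∈ P j)).card +
        (Finset.univ.filter (fun j => i ∈ N j)).card := by
      rw [Finset.card_filter, Fin.sum_univ_add, Finset.card_filter, Finset.card_filter]
      simp only [Fin.addCases_left, Fin.addCases_right]
    rw [e1]
    have e2 : (((Finset.univ.filter (fun j => i ∈ P j)).card +
        (Finset.univ.filter (fun j => i ∈ N j)).card : ℕ) : ℝ) = ∑ j, |w i j| := by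
      push_cast
      rw [Finset.card_filter, Finset.card_filter]
      push_cast
      rw [← Finset.sum_add_distrib]
      refine Finset.sum_congr rfl fun j _ => ?_
      rcases (hw i).1 j with h0 | h0 | h0 <;> simp [hP, hN, h0] <;> norm_num
    have e3 := (hw i).2
    rw [← e2] at e3
    exact_mod_cast e3)
  refine ⟨ε, hε, fun j => ?_⟩
  have h1 := hεR (Fin.castAdd m j)
  have h2 := hεR (Fin.natAdd m j)
  simp only [Fin.addCases_left, Fin.addCases_right] at h1 h2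
  push_cast at h1 h2
  have h3 : ∑ i, (ε i : ℝ) * w i j = ∑ i ∈ P j, (ε i : ℝ) - ∑ i ∈ N j, (ε i : ℝ) := by
    simp only [hP, hN, Finset.sum_filter]
    rw [← Finset.sum_sub_distrib]
    refine Finset.sum_congr rfl fun i _ => ?_
    rcases (hw i).1 j with h0 | h0 | h0 <;> rw [h0] <;> norm_num
  rw [h3]
  refine (abs_sub _ _).trans ?_
  linarith

theorem uncond : ∃ C : ℝ, 0 < C ∧ ∀ (m n t : ℕ) (S : Fin m → Finset (Fin n)), 1 ≤ t →
    DegreeLE S t → HasColouring S (C * (Real.sqrt t + (1 + Real.log t) ^ (3 / 2 : ℝ) *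
      Real.sqrt (Real.log (1 + (min m n : ℕ))))) := by
  obtain ⟨C, hC⟩ := Pool.Agent.Results.MP_e8ee11_co.ColouringsCount.part2'
  refine ⟨|C| + 1, by positivity, fun m n t S ht hS => ?_⟩
  have h1 := hC m n t S 1 ht hS one_pos
  set A : ℝ := Real.sqrt t + (1 + Real.log t) ^ (3 / 2 : ℝ) *
      Real.sqrt (Real.log (1 + (min m n : ℕ))) with hA
  have h2 : (0:ℝ) < (Pool.Agent.Results.MP_e8ee11_co.ColouringsCount.count S
      (C * A + 1 * Real.sqrt t) : ℝ) := lt_of_lt_of_le (by positivity) h1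
  have h3 : 0 < Pool.Agent.Results.MP_e8ee11_co.ColouringsCount.count S
      (C * A + 1 * Real.sqrt t) := by exact_mod_cast h2
  unfold Pool.Agent.Results.MP_e8ee11_co.ColouringsCount.count at h3
  obtain ⟨⟨χ, hχ⟩⟩ := (Nat.card_pos_iff.1 h3).1
  refine ⟨fun i => (χ i : ℤ), fun i => ?_, fun j => ?_⟩
  · rcases Int.units_eq_one_or (χ i) with h | h <;> simp [h]
  · push_cast
    refine (hχ j).trans ?_
    have ht0 : (1:ℝ) ≤ t := by exact_mod_cast ht
    have h4 : 0 ≤ Real.log (t:ℝ) := Real.log_nonneg ht0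
    have h5 : Real.sqrt t ≤ A := by
      rw [hA]
      have : 0 ≤ (1 + Real.log (t:ℝ)) ^ (3 / 2 : ℝ) *
        Real.sqrt (Real.log (1 + (min m n : ℕ))) := by positivity
      linarith
    have h6 : 0 ≤ A := (Real.sqrt_nonneg _).trans h5
    have h7 := mul_le_mul_of_nonneg_right (le_abs_self C) h6
    linarith

theorem part2 : ∃ C : ℝ, ∀ (m n t : ℕ) (S : Fin m → Finset (Fin n)) (L : Set (Finset (Fin n)))
    (x₀ : Fin n → ℝ), 1 ≤ t → DegreeLE S t → Laminar L → (∀ i, 0 ≤ x₀ i ∧ x₀ i ≤ 1) →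
    HasRounding S L x₀ (C * (Real.sqrt t + (1 + Real.log t) ^ (3 / 2 : ℝ) *
      Real.sqrt (Real.log (1 + (min m n : ℕ))))) := by
  obtain ⟨C, hC0, hC⟩ := uncond
  refine ⟨16 * C, fun m n t S L x₀ ht hS hL hx => ?_⟩
  refine core S L x₀ _ hS hL hx fun k hk w hw => ?_
  have ht0 : (1:ℝ) ≤ t := by exact_mod_cast ht
  have hlt : 0 ≤ Real.log (t:ℝ) := Real.log_nonneg ht0
  obtain ⟨ε, hε, hεR⟩ := stack (C * (Real.sqrt ((2 * t : ℕ) : ℝ) +
    (1 + Real.log ((2 * t : ℕ) : ℝ)) ^ (3 / 2 : ℝ) *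
      Real.sqrt (Real.log (1 + (min (m + m) k : ℕ)))))
    (fun S' hS' => hC (m + m) k (2 * t) S' (by omega) hS') w hw
  refine ⟨ε, hε, fun j => (hεR j).trans ?_⟩
  have h1 : Real.sqrt ((2 * t : ℕ) : ℝ) ≤ 2 * Real.sqrt t := by
    rw [Real.sqrt_le_left (by positivity), mul_pow, Real.sq_sqrt (by positivity)]
    push_cast
    linarith
  have h2 : (1 + Real.log ((2 * t : ℕ) : ℝ)) ^ (3 / 2 : ℝ) ≤
      4 * (1 + Real.log (t:ℝ)) ^ (3 / 2 : ℝ) := by
    have h3 : 1 + Real.log ((2 * t : ℕ) : ℝ) ≤ 2 * (1 + Real.log (t:ℝ)) := by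
      push_cast
      rw [Real.log_mul (by norm_num) (by linarith)]
      have := Real.log_two_lt_d9
      linarith
    have h4 : 0 ≤ 1 + Real.log ((2 * t : ℕ) : ℝ) := by
      have : 0 ≤ Real.log ((2 * t : ℕ) : ℝ) := Real.log_nonneg (by push_cast; linarith)
      linarith
    calc (1 + Real.log ((2 * t : ℕ) : ℝ)) ^ (3 / 2 : ℝ) ≤
          (2 * (1 + Real.log (t:ℝ))) ^ (3 / 2 : ℝ) := Real.rpow_le_rpow h4 h3 (by norm_num)
      _ = 2 ^ (3 / 2 : ℝ) * (1 + Real.log (t:ℝ)) ^ (3 / 2 : ℝ) :=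
          Real.mul_rpow (by norm_num) (by linarith)
      _ ≤ 4 * (1 + Real.log (t:ℝ)) ^ (3 / 2 : ℝ) := by
          apply mul_le_mul_of_nonneg_right _ (by positivity)
          calc (2:ℝ) ^ (3 / 2 : ℝ) ≤ 2 ^ (2:ℝ) :=
                Real.rpow_le_rpow_of_exponent_le (by norm_num) (by norm_num)
            _ = 4 := by norm_num
  have h3 : Real.sqrt (Real.log (1 + ((min (m + m) k : ℕ) : ℝ))) ≤
      2 * Real.sqrt (Real.log (1 + ((min m n : ℕ) : ℝ))) := by
    rw [Real.sqrt_le_left (by positivity), mul_pow, Real.sq_sqrt (Real.log_nonneg (by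
      have : (0:ℝ) ≤ ((min m n : ℕ) : ℝ) := by positivity
      linarith))]
    have h4 : ((min (m + m) k : ℕ) : ℝ) ≤ 2 * ((min m n : ℕ) : ℝ) := by
      have : min (m + m) k ≤ 2 * min m n := by omega
      exact_mod_cast this
    have h5 : (0:ℝ) ≤ ((min m n : ℕ) : ℝ) := by positivity
    have h6 : (0:ℝ) ≤ ((min (m + m) k : ℕ) : ℝ) := by positivity
    have h7 : Real.log (1 + ((min (m + m) k : ℕ) : ℝ)) ≤
        Real.log ((1 + ((min m n : ℕ) : ℝ)) ^ 2) := by
      apply Real.log_le_log (by linarith)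
      nlinarith
    rw [Real.log_pow] at h7
    push_cast at h7 ⊢
    have h8 : 0 ≤ Real.log (1 + ((min m n : ℕ) : ℝ)) := Real.log_nonneg (by linarith)
    push_cast at h8
    linarith
  have h9 : 0 ≤ (1 + Real.log (t:ℝ)) ^ (3 / 2 : ℝ) := by positivity
  have h10 : 0 ≤ Real.sqrt (Real.log (1 + ((min (m + m) k : ℕ) : ℝ))) := Real.sqrt_nonneg _
  have h11 : (1 + Real.log ((2 * t : ℕ) : ℝ)) ^ (3 / 2 : ℝ) *
      Real.sqrt (Real.log (1 + ((min (m + m) k : ℕ) : ℝ))) ≤
      4 * (1 + Real.log (t:ℝ)) ^ (3 / 2 : ℝ) *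
        (2 * Real.sqrt (Real.log (1 + ((min m n : ℕ) : ℝ)))) :=
    mul_le_mul h2 h3 h10 (by positivity)
  have h12 : 0 ≤ Real.sqrt (t:ℝ) := Real.sqrt_nonneg _
  have h13 : Real.sqrt ((2 * t : ℕ) : ℝ) + (1 + Real.log ((2 * t : ℕ) : ℝ)) ^ (3 / 2 : ℝ) *
      Real.sqrt (Real.log (1 + ((min (m + m) k : ℕ) : ℝ))) ≤
      8 * (Real.sqrt t + (1 + Real.log t) ^ (3 / 2 : ℝ) *
        Real.sqrt (Real.log (1 + ((min m n : ℕ) : ℝ)))) := by
    linarith
  have h14 := mul_le_mul_of_nonneg_left h13 hC0.le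
  linarith

theorem part3 :
    (∃ C : ℝ, 0 < C ∧ ∀ (n m t : ℕ) (S : Fin m → Finset (Fin n)), DegreeLE S t →
      HasColouring S (C * Real.sqrt t)) ↔
    ∃ c : ℝ, 0 < c ∧ ∀ (n m t : ℕ) (S : Fin m → Finset (Fin n)) (L : Set (Finset (Fin n)))
      (x₀ : Fin n → ℝ), DegreeLE S t → Laminar L → (∀ i, 0 ≤ x₀ i ∧ x₀ i ≤ 1) →
      HasRounding S L x₀ (c * Real.sqrt t) := by
  constructor
  · rintro ⟨C, hC, h⟩
    refine ⟨4 * C, by positivity, fun n m t S L x₀ hS hL hx => ?_⟩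
    refine core S L x₀ _ hS hL hx fun k hk w hw => ?_
    obtain ⟨ε, hε, hεR⟩ := stack (C * Real.sqrt ((2 * t : ℕ) : ℝ))
      (fun S' hS' => h k (m + m) (2 * t) S' hS') w hw
    refine ⟨ε, hε, fun j => (hεR j).trans ?_⟩
    have h1 : Real.sqrt ((2 * t : ℕ) : ℝ) ≤ 2 * Real.sqrt t := by
      rw [Real.sqrt_le_left (by positivity), mul_pow, Real.sq_sqrt (by positivity)]
      push_cast
      have : (0:ℝ) ≤ t := by positivity
      linarith
    have h2 := mul_le_mul_of_nonneg_left h1 hC.le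
    linarith
  · rintro ⟨c, hc, h⟩
    refine ⟨2 * c, by positivity, fun n m t S hS => ?_⟩
    obtain ⟨x, hx1, _, hx3⟩ := h n m t S ∅ (fun _ => 1 / 2) hS
      (fun S hS => absurd hS (Set.notMem_empty S)) (fun _ => by norm_num)
    have hint : ∀ i, ∃ e : ℤ, (e = 1 ∨ e = -1) ∧ (e : ℝ) = 2 * x i - 1 := by
      intro i
      rcases hx1 i with h | h
      · exact ⟨-1, Or.inr rfl, by rw [h]; norm_num⟩
      · exact ⟨1, Or.inl rfl, by rw [h]; norm_num⟩
    choose e he1 he2 using hint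
    refine ⟨e, he1, fun j => ?_⟩
    push_cast
    have h4 : ∑ i ∈ S j, (e i : ℝ) = 2 * ∑ i ∈ S j, (x i - 1 / 2) := by
      rw [Finset.mul_sum]
      refine Finset.sum_congr rfl fun i _ => ?_
      rw [he2 i]; ring
    rw [h4, abs_mul, abs_two]
    have := hx3 j
    linarith

/-- **Beck–Fiala with laminar constraints**: see the header of the file. -/
theorem result :
    (∀ (m n t : ℕ) (S : Fin m → Finset (Fin n)) (L : Set (Finset (Fin n))) (x₀ : Fin n → ℝ),
      DegreeLE S t → Laminar L → (∀ i, 0 ≤ x₀ i ∧ x₀ i ≤ 1) → HasRounding S L x₀ (2 * t)) ∧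
    (∃ C : ℝ, ∀ (m n t : ℕ) (S : Fin m → Finset (Fin n)) (L : Set (Finset (Fin n)))
      (x₀ : Fin n → ℝ), 1 ≤ t → DegreeLE S t → Laminar L → (∀ i, 0 ≤ x₀ i ∧ x₀ i ≤ 1) →
      HasRounding S L x₀ (C * (Real.sqrt t + (1 + Real.log t) ^ (3 / 2 : ℝ) *
        Real.sqrt (Real.log (1 + (min m n : ℕ)))))) ∧
    ((∃ C : ℝ, 0 < C ∧ ∀ (n m t : ℕ) (S : Fin m → Finset (Fin n)), DegreeLE S t →
        HasColouring S (C * Real.sqrt t)) ↔
      ∃ c : ℝ, 0 < c ∧ ∀ (n m t : ℕ) (S : Fin m → Finset (Fin n)) (L : Set (Finset (Fin n)))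
        (x₀ : Fin n → ℝ), DegreeLE S t → Laminar L → (∀ i, 0 ≤ x₀ i ∧ x₀ i ≤ 1) →
        HasRounding S L x₀ (c * Real.sqrt t)) :=
  ⟨part1, part2, part3⟩

end Pool.Agent.Results.MP_e8ee11_co.LaminarRounding
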