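import Pool.Agent.R959.LD3.Final3

set_option autoImplicit false

/-!
# The Beck–Fiala bound for all sets of size `O(t)`, up to exponentially long other sets

Let `0 < κ < 1/9`. Every set system of maximum degree at most `t` (any number of points, any number
of sets, any sizes) has a colouring in which every set `S` has discrepancy at most
`C (√t + √|S| + |S| exp (-t ^ κ))`. In particular all the sets of size `O(t)` have discrepancy
`O(√t)`, and all the sets of size at most `exp (t ^ κ)` have discrepancy `O(√t + √|S|)`.
In addition all the initial segments of the ground set have discrepancy at most one.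

Proof. After scaling, the incidence matrix has entries at most `t ^ (-1/2)`, rows and columns with
norm at most one, and the operator norm of its absolute value is at most `√t`. The colouring is
built in `O(log t)` phases. In each phase the new fractional colouring is, in coordinates, the
minimiser over a cube of `|z - g| ^ 2 / 2` plus a barrier potential of the row sums of `z`, where
`g` is Gaussian; the influence of far away data on the minimiser decays exponentially, at a rate
governed by the operator norm only, so that the bad events are approximately local and the local
lemma applies. Only the logarithm of the size of a ball of the dependency graph counts, therefore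
rows with up to `exp (t ^ κ)` entries are allowed. Longer sets are cut into pieces.
-/

open Finset

namespace Pool.Agent.Results.MP_e8ee11_co.LongSets

theorem result :
    ∀ κ : ℝ, 0 < κ → κ < 1 / 9 →
      ∃ C : ℝ, 0 < C ∧
        ∀ (n m t : ℕ) (S : Fin m → Finset (Fin n)), 1 ≤ t →
          (∀ i : Fin n, (univ.filter (fun j : Fin m => i ∈ S j)).card ≤ t) →
          ∃ χ : Fin n → ℤ, (∀ i, χ i = 1 ∨ χ i = -1) ∧
            (∀ j : Fin m, ((|∑ i ∈ S j, χ i| : ℤ) : ℝ) ≤
              C * (Real.sqrt t + Real.sqrt (S j).card +
                (S j).card * Real.exp (-((t : ℝ) ^ κ)))) ∧
            ∀ c : ℕ, |∑ i ∈ univ.filter (fun i : Fin n => (i : ℕ) < c), χ i| ≤ 1 :=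
  fun κ hκ h => Pool.Agent.R959.LD3.cor_all κ hκ
    (Pool.Agent.R959.LD3.main3 1 κ zero_le_one hκ (by linarith))

end Pool.Agent.Results.MP_e8ee11_co.LongSets
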