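import Pool.Agent.R378.RepAvg
import Pool.Agent.Results.MP_e8ee11_co.ColouringsCount

/-!
# The Beck-Fiala problem with random turns and with online repair of random colourings

Let `S_1, …, S_m` be subsets of `{1, …, n}` such that every element is in at most `t` of them. The
colours `χ_1, …, χ_n` are chosen in this order. Three online problems:

* Online repair: the colours are random and independent; the player sees them one after the other
  and may change each of them when he sees it. He wants to reach discrepancy at most `R` with few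
  changes.
* Random turns: before each colour is chosen a fair coin decides whether it is chosen by an
  adversary (who knows everything so far) or by the player; the player may buy the turns of the
  adversary. He wants to reach discrepancy at most `R`, for all adversaries, with few purchases.
* Fixed turns: the set `J` of the turns of the adversary is random, and known before the game. The
  player removes a set `E J` of a few turns from `J` (the decision about the turn `j` depends only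
  on the turns up to `j`), and then he must reach discrepancy at most `R`, for all adversaries.

(1) If the traces of the system on all subsets of the ground set have discrepancy at most `B`, then
for all `D > 0` and `s ≥ 0` in all three problems the player always reaches discrepancy `B + D √t`,
and the probability that he has to pay more than `s` is at most `exp (15200 n / D² - s² / n)`.

(2) So this holds, for all systems of maximum degree at most `t`, with `B = t`, and with
`B = C (√t + (1 + log t)^{3/2} √(log (1 + min m n)))`, `C` an absolute constant.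

(3) The Beck-Fiala conjecture holds if and only if there is a constant `C` such that for all systems
of maximum degree at most `t` and all `D ≥ C` the player always reaches discrepancy `D √t` in all
three problems, and pays more than `C n / D` with probability at most `exp (-n / D²)`.

(4) The cost `n / D` is best possible for every `t`: for all `t ≥ 1` and `D ≥ 1` there are
arbitrarily large systems of maximum degree at most `t` such that in all three problems the mean
cost of reaching discrepancy `D √t` is at least `n / (417 D)` (in the first one even offline, in the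
second one for a suitable adversary).

The proof of (1) uses the number of the colourings of small discrepancy (starting file
`ColouringsCount`), the equality of the numbers of winnable sets and of good colourings (helper814,
`AdversarialSigns`), and inductions which show that Talagrand's bound for the exponential moment of
the Hamming distance from a set holds online, and in the random-turn game. (4) uses the
Sylvester-Hadamard systems, with every element repeated.
-/

set_option autoImplicit false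

namespace Pool.Agent.Results.MP_e8ee11_co.RandomTurns

open Finset Pool.Agent.R378 Pool.Agent.R378.Game
open Pool.Agent.Results.MP_e8ee11_co.ColouringsCount (DegreeLE count)

/-- The colouring `χ` has discrepancy at most `R`. -/
def DiscLE {m n : ℕ} (S : Fin m → Finset (Fin n)) (R : ℝ) (χ : Fin n → ℤˣ) : Prop :=
  ∀ j, |∑ i ∈ S j, ((χ i : ℤ) : ℝ)| ≤ R

/-- The player, who chooses the colours of the elements outside `J`, has a strategy `σ` which forces
that the colouring has discrepancy at most `R`, whatever the colours of the elements of `J` are. The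
colour `σ j χ` depends only on the colours `χ_i`, `i < j`. -/
def Winnable {m n : ℕ} (S : Fin m → Finset (Fin n)) (R : ℝ) (J : Finset (Fin n)) : Prop :=
  ∃ σ : Fin n → (Fin n → ℤˣ) → ℤˣ,
    (∀ j χ χ', (∀ i, i < j → χ i = χ' i) → σ j χ = σ j χ') ∧
    ∀ χ : Fin n → ℤˣ, (∀ j, j ∉ J → χ j = σ j χ) → DiscLE S R χ

/-- Online repair: the colour `τ χ j` depends only on the colours `χ_i`, `i ≤ j`; the colouring
`τ χ` has discrepancy at most `R` for all `χ`, and it differs from `χ` in more than `s` places for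
at most `p` colourings `χ`. -/
def OnlineRepair {m n : ℕ} (S : Fin m → Finset (Fin n)) (R s p : ℝ) : Prop :=
  ∃ τ : (Fin n → ℤˣ) → Fin n → ℤˣ,
    (∀ χ χ' j, (∀ i, i ≤ j → χ i = χ' i) → τ χ j = τ χ' j) ∧ (∀ χ, DiscLE S R (τ χ)) ∧
    (Nat.card {χ : Fin n → ℤˣ // s < (univ.filter (fun i => χ i ≠ τ χ i)).card} : ℝ) ≤ p

/-- Random turns: there is a strategy such that, for all adversaries, the discrepancy is at most `R`
for all sequences `c` of coins, and more than `s` turns are bought for at most `p` of the `2^n`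
sequences. -/
def RandomTurnGame {m n : ℕ} (S : Fin m → Finset (Fin n)) (R s p : ℝ) : Prop :=
  ∃ T : Strategy n, ∀ P, IsPlay T P → (∀ c, DiscLE S R (P c)) ∧
    (Nat.card {c : Fin n → Bool // s < cost T P c} : ℝ) ≤ p

/-- Fixed turns: for every set `J` of turns of the adversary the set `J \ E J` is winnable, `E J`
has more than `s` elements for at most `p` sets `J`, and the decision whether `j ∈ E J` depends only
on the elements `i ≤ j` of `J`. -/
def FixedTurns {m n : ℕ} (S : Fin m → Finset (Fin n)) (R s p : ℝ) : Prop :=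
  ∃ E : Finset (Fin n) → Finset (Fin n),
    (∀ J J' j, (∀ i, i ≤ j → (i ∈ J ↔ i ∈ J')) → (j ∈ E J ↔ j ∈ E J')) ∧
    (∀ J, E J ⊆ J ∧ Winnable S R (J \ E J)) ∧
    (Nat.card {J : Finset (Fin n) // s < (E J).card} : ℝ) ≤ p

/-- All three problems. -/
def AllThree {m n : ℕ} (S : Fin m → Finset (Fin n)) (R s p : ℝ) : Prop :=
  OnlineRepair S R s p ∧ RandomTurnGame S R s p ∧ FixedTurns S R s p

theorem AllThree.mono {m n : ℕ} {S : Fin m → Finset (Fin n)} {R s p p' : ℝ} (h : AllThree S R s p)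
    (hp : p ≤ p') : AllThree S R s p' := by
  obtain ⟨⟨τ, h1, h2, h3⟩, ⟨T, hT⟩, ⟨E, h4, h5, h6⟩⟩ := h
  exact ⟨⟨τ, h1, h2, h3.trans hp⟩, ⟨T, fun P hP => ⟨(hT P hP).1, (hT P hP).2.trans hp⟩⟩,
    ⟨E, h4, h5, h6.trans hp⟩⟩

theorem core {m n : ℕ} (S : Fin m → Finset (Fin n)) (R a s : ℝ) (hs : 0 ≤ s)
    (h : 2 ^ n * Real.exp (-a) ≤ (count S R : ℝ)) :
    AllThree S R s (2 ^ n * Real.exp (a - s ^ 2 / n)) :=
  ⟨Rep.few_signings (DiscLE S R) a s hs h, few_costly n (DiscLE S R) a s hs h,
    Rep.few_positions (DiscLE S R) a s hs h⟩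

theorem sq_div (n : ℕ) (K D : ℝ) : (K * n / D) ^ 2 / n = K ^ 2 * n / D ^ 2 := by
  rcases Nat.eq_zero_or_pos n with h | h
  · simp [h]
  · have hn : (n:ℝ) ≠ 0 := by positivity
    rcases eq_or_ne D 0 with hD | hD
    · simp [hD]
    · field_simp

theorem part1 (m n t : ℕ) (S : Fin m → Finset (Fin n)) (B D s : ℝ) (hS : DegreeLE S t)
    (hD : 0 < D) (hs : 0 ≤ s)
    (hB : ∀ I : Finset (Fin n), ∃ χ : Fin n → ℤˣ, ∀ j, |∑ i ∈ S j ∩ I, ((χ i : ℤ) : ℝ)| ≤ B) :
    AllThree S (B + D * Real.sqrt t) s (2 ^ n * Real.exp (15200 * n / D ^ 2 - s ^ 2 / n)) :=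
  core S _ _ s hs (ColouringsCount.transfer m n t S B D hS hD hB)

theorem part2 (m n t : ℕ) (S : Fin m → Finset (Fin n)) (D s : ℝ) (hS : DegreeLE S t)
    (hD : 0 < D) (hs : 0 ≤ s) :
    AllThree S (t + D * Real.sqrt t) s (2 ^ n * Real.exp (15200 * n / D ^ 2 - s ^ 2 / n)) :=
  core S _ _ s hs (ColouringsCount.part2 m n t S D hS hD)

theorem part2' : ∃ C : ℝ, ∀ (m n t : ℕ) (S : Fin m → Finset (Fin n)) (D s : ℝ), 1 ≤ t →
    DegreeLE S t → 0 < D → 0 ≤ s →
    AllThree S (C * (Real.sqrt t + (1 + Real.log t) ^ (3 / 2 : ℝ) *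
      Real.sqrt (Real.log (1 + (min m n : ℕ)))) + D * Real.sqrt t) s
      (2 ^ n * Real.exp (15200 * n / D ^ 2 - s ^ 2 / n)) := by
  obtain ⟨C, hC⟩ := ColouringsCount.part2'
  exact ⟨C, fun m n t S D s ht hS hD hs => core S _ _ s hs (hC m n t S D ht hS hD)⟩

theorem part3 :
    (∃ C : ℝ, 0 < C ∧ ∀ (n m t : ℕ) (S : Fin m → Finset (Fin n)), DegreeLE S t →
      ∃ χ : Fin n → ℤ, (∀ i, χ i = 1 ∨ χ i = -1) ∧
        ∀ j, ((|∑ i ∈ S j, χ i| : ℤ) : ℝ) ≤ C * Real.sqrt t) ↔
    ∃ C : ℝ, 0 < C ∧ ∀ (n m t : ℕ) (S : Fin m → Finset (Fin n)), DegreeLE S t →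
      ∀ D : ℝ, C ≤ D →
        AllThree S (D * Real.sqrt t) (C * n / D) (2 ^ n * Real.exp (-(n / D ^ 2))) := by
  constructor
  · intro h
    obtain ⟨C, hC, h2⟩ := ColouringsCount.part3.1 h
    refine ⟨C + 1, by positivity, fun n m t S hS D hD => ?_⟩
    have hCD : C ≤ D := by linarith
    have hD0 : 0 < D := by linarith
    refine (core S (D * Real.sqrt t) (C * n / D ^ 2) ((C + 1) * n / D) (by positivity)
      (h2 n m t S hS D hCD)).mono ?_
    rw [sq_div]
    apply mul_le_mul_of_nonneg_left _ (by positivity)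
    apply Real.exp_le_exp.2
    have h5 : C * n / D ^ 2 - (C + 1) ^ 2 * n / D ^ 2 = -((C ^ 2 + C + 1) * (n / D ^ 2)) := by
      ring
    rw [h5]
    have h6 : 0 ≤ (n:ℝ) / D ^ 2 := by positivity
    nlinarith
  · rintro ⟨C, hC, h⟩
    refine ⟨C, hC, fun n m t S hS => ?_⟩
    obtain ⟨⟨τ, _, hτ, _⟩, _⟩ := h n m t S hS C le_rfl
    refine ⟨fun i => (τ (fun _ => 1) i : ℤ), fun i => ?_, fun j => ?_⟩
    · rcases Int.units_eq_one_or (τ (fun _ => 1) i) with h | h <;> simp [h]
    · have := hτ (fun _ => 1) j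
      push_cast
      exact this

/-! ### Sharpness -/

/-- blocks are numbered by a group and a row of the Hadamard matrix -/
noncomputable def f (N k : ℕ) : Fin (N * 2 ^ k) ≃ Fin N × Finset (Fin k) :=
  finProdFinEquiv.symm.trans (Equiv.prodCongr (Equiv.refl _)
    (Fintype.equivFinOfCardEq (by simp : Fintype.card (Finset (Fin k)) = 2 ^ k)).symm)

/-- the system: `N` copies of the Sylvester-Hadamard system of order `2^k`, every element repeated
`m` times -/
noncomputable def sys (N k m : ℕ) (j : Fin (N * 2 ^ k)) : Finset (Fin (N * 2 ^ k * m)) :=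
  univ.filter (fun i => (f N k (Rep.blk _ m i)).1 = (f N k j).1 ∧
    RepAvg.had (f N k (Rep.blk _ m i)).2 (f N k j).2 = 1)

theorem sys_degree (N k m : ℕ) : DegreeLE (sys N k m) (2 ^ k) := by
  classical
  intro i
  set b := f N k (Rep.blk _ m i) with hb
  have h1 : univ.filter (fun j => i ∈ sys N k m j) ⊆
      (univ : Finset (Finset (Fin k))).image (fun x => (f N k).symm (b.1, x)) := by
    intro j hj
    rw [mem_filter] at hj
    unfold sys at hj
    rw [mem_filter] at hj
    rw [mem_image]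
    refine ⟨(f N k j).2, mem_univ _, ?_⟩
    rw [hb, hj.2.2.1]
    simp
  refine (Finset.card_le_card h1).trans (Finset.card_image_le.trans ?_)
  simp

theorem sys_sum (N k m : ℕ) (χ : Fin (N * 2 ^ k * m) → ℤˣ) (g : Fin N) (j : Finset (Fin k)) :
    ∑ i ∈ sys N k m ((f N k).symm (g, j)), ((χ i : ℤ) : ℝ) =
      ∑ b, (if RepAvg.had b j = 1 then Khin.S (Rep.B _ m ((f N k).symm (g, b))) χ else 0) := by
  classical
  have h1 : ∀ b, (if RepAvg.had b j = 1 then Khin.S (Rep.B _ m ((f N k).symm (g, b))) χ else 0) =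
      ∑ i, (if Rep.blk _ m i = (f N k).symm (g, b) then
        (if RepAvg.had b j = 1 then ((χ i : ℤ) : ℝ) else 0) else 0) := by
    intro b
    unfold Khin.S Rep.B
    rw [Finset.sum_filter]
    split_ifs with h
    · rfl
    · simp
  simp only [h1]
  rw [Finset.sum_comm]
  unfold sys
  rw [Finset.sum_filter]
  refine Finset.sum_congr rfl fun i _ => ?_
  rw [Equiv.apply_symm_apply]
  have h2 : ∀ b, (Rep.blk _ m i = (f N k).symm (g, b)) ↔
      ((f N k (Rep.blk _ m i)).1 = g ∧ b = (f N k (Rep.blk _ m i)).2) := by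
    intro b
    rw [(f N k).eq_symm_apply, Prod.ext_iff]
    constructor
    · rintro ⟨h, h'⟩; exact ⟨h, h'.symm⟩
    · rintro ⟨h, h'⟩; exact ⟨h, h'.symm⟩
  simp only [h2]
  by_cases hg : (f N k (Rep.blk _ m i)).1 = g
  · simp [hg]
  · simp [hg]

theorem sys_abs (N k m : ℕ) (χ : Fin (N * 2 ^ k * m) → ℤˣ) (R : ℝ)
    (h : DiscLE (sys N k m) R χ) :
    ∑ b, |Khin.S (Rep.B _ m b) χ| ≤ N * (3 * R * Real.sqrt (2 ^ k)) := by
  classical
  rw [← Equiv.sum_comp (f N k).symm, Fintype.sum_prod_type]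
  calc ∑ g : Fin N, ∑ b : Finset (Fin k), |Khin.S (Rep.B _ m ((f N k).symm (g, b))) χ|
      ≤ ∑ _g : Fin N, 3 * R * Real.sqrt (2 ^ k) := by
        refine Finset.sum_le_sum fun g _ => ?_
        refine RepAvg.sum_abs_le (fun b => Khin.S (Rep.B _ m ((f N k).symm (g, b))) χ) R
          fun j => ?_
        rw [← sys_sum]
        exact h _
    _ = N * (3 * R * Real.sqrt (2 ^ k)) := by
        rw [Finset.sum_const, Finset.card_univ, Fintype.card_fin, nsmul_eq_mul]

theorem part4 (t : ℕ) (ht : 1 ≤ t) (D : ℝ) (hD : 1 ≤ D) (N : ℕ) :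
    ∃ (n m : ℕ) (S : Fin m → Finset (Fin n)), N ≤ n ∧ DegreeLE S t ∧
      (∀ τ : (Fin n → ℤˣ) → Fin n → ℤˣ, (∀ χ, DiscLE S (D * Real.sqrt t) (τ χ)) →
        2 ^ n * (n / (417 * D)) ≤ ∑ χ, ((univ.filter (fun i => χ i ≠ τ χ i)).card : ℝ)) ∧
      (∀ T : Strategy n, (∀ P, IsPlay T P → ∀ c, DiscLE S (D * Real.sqrt t) (P c)) →
        ∃ P, IsPlay T P ∧ 2 ^ n * (n / (417 * D)) ≤ ∑ c, (cost T P c : ℝ)) ∧
      ∀ E : Finset (Fin n) → Finset (Fin n),
        (∀ J, Winnable S (D * Real.sqrt t) (J \ E J)) →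
        2 ^ n * (n / (417 * D)) ≤ ∑ J, ((E J).card : ℝ) := by
  classical
  set k := Nat.log 2 t with hk
  have hk1 : 2 ^ k ≤ t := Nat.pow_log_le_self 2 (by omega)
  have hk2 : t < 2 ^ (k + 1) := Nat.lt_pow_succ_log_self (by norm_num) t
  set D' : ℝ := 17 / 4 * D with hD'
  have hD0 : 0 < D := by linarith
  obtain ⟨m, hm0, hm1, hm2⟩ := Rep.exists_m D' (by rw [hD']; linarith)
  have hroot : 3 * (D * Real.sqrt t) * Real.sqrt (2 ^ k) ≤ 2 ^ k * D' := by
    have h1 : Real.sqrt t ≤ Real.sqrt 2 * Real.sqrt (2 ^ k) := by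
      rw [← Real.sqrt_mul (by norm_num)]
      apply Real.sqrt_le_sqrt
      have : ((t:ℕ):ℝ) ≤ ((2 ^ (k + 1) : ℕ) : ℝ) := by exact_mod_cast hk2.le
      push_cast at this
      rw [pow_succ] at this
      linarith
    have h2 : Real.sqrt 2 ≤ 17 / 12 := by
      rw [Real.sqrt_le_left (by norm_num)]
      norm_num
    have h3 : Real.sqrt (2 ^ k) * Real.sqrt (2 ^ k) = 2 ^ k := Real.mul_self_sqrt (by positivity)
    have h4 : Real.sqrt t ≤ 17 / 12 * Real.sqrt (2 ^ k) :=
      h1.trans (mul_le_mul_of_nonneg_right h2 (by positivity))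
    calc 3 * (D * Real.sqrt t) * Real.sqrt (2 ^ k)
        = 3 * D * Real.sqrt (2 ^ k) * Real.sqrt t := by ring
      _ ≤ 3 * D * Real.sqrt (2 ^ k) * (17 / 12 * Real.sqrt (2 ^ k)) :=
          mul_le_mul_of_nonneg_left h4 (by positivity)
      _ = 17 / 4 * D * (Real.sqrt (2 ^ k) * Real.sqrt (2 ^ k)) := by ring
      _ = 2 ^ k * D' := by rw [h3, hD']; ring
  have habs : ∀ χ, DiscLE (sys N k m) (D * Real.sqrt t) χ →
      ∑ b, |Khin.S (Rep.B _ m b) χ| ≤ ((N * 2 ^ k : ℕ) : ℝ) * D' := by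
    intro χ hχ
    refine (sys_abs N k m χ _ hχ).trans ?_
    push_cast
    rw [mul_assoc (N:ℝ) (2 ^ k) D']
    exact mul_le_mul_of_nonneg_left hroot (Nat.cast_nonneg N)
  have hn : ((N * 2 ^ k * m : ℕ) : ℝ) / (417 * D) ≤ ((N * 2 ^ k : ℕ) : ℝ) * (D' / 2) := by
    rw [div_le_iff₀ (by positivity)]
    push_cast
    have h1 : (N:ℝ) * 2 ^ k * m ≤ N * 2 ^ k * (49 * D' ^ 2) :=
      mul_le_mul_of_nonneg_left hm2 (by positivity)
    refine h1.trans ?_
    rw [hD']
    have h2 : (0:ℝ) ≤ N * 2 ^ k * D ^ 2 := by positivity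
    nlinarith
  have hn' : (2:ℝ) ^ (N * 2 ^ k * m) * (((N * 2 ^ k * m : ℕ) : ℝ) / (417 * D)) ≤
      2 ^ (N * 2 ^ k * m) * (((N * 2 ^ k : ℕ) : ℝ) * (D' / 2)) :=
    mul_le_mul_of_nonneg_left hn (by positivity)
  refine ⟨N * 2 ^ k * m, N * 2 ^ k, sys N k m, ?_, fun i => (sys_degree N k m i).trans hk1,
    ?_, ?_, ?_⟩
  · rw [mul_assoc]
    exact Nat.le_mul_of_pos_right N (by positivity)
  · intro τ hτ
    have h1 := RepAvg.sharp_signings (N * 2 ^ k) m D' hm1 τ (fun χ => habs _ (hτ χ))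
    refine hn'.trans (le_trans (mul_le_mul_of_nonneg_left ?_ (by positivity)) h1)
    have : (0:ℝ) ≤ ((N * 2 ^ k : ℕ) : ℝ) * D' := by positivity
    nlinarith
  · intro T hT
    obtain ⟨P, hP1, hP2⟩ := RepAvg.sharp_game (N * 2 ^ k) m D' hm1 T
      (fun P hP c => habs _ (hT P hP c))
    exact ⟨P, hP1, hn'.trans hP2⟩
  · intro E hE
    have h1 := RepAvg.sharp_positions (N * 2 ^ k) m D' hm1 E (fun J =>
      RepAvg.wins_excess (F := DiscLE (sys N k m) (D * Real.sqrt t)) (hE J) habs)
    exact hn'.trans h1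

/-- **The Beck-Fiala problem with random turns and with online repair of random colourings**: see
the header of the file. -/
theorem result :
    (∀ (m n t : ℕ) (S : Fin m → Finset (Fin n)) (B D s : ℝ), DegreeLE S t → 0 < D → 0 ≤ s →
      (∀ I : Finset (Fin n), ∃ χ : Fin n → ℤˣ, ∀ j, |∑ i ∈ S j ∩ I, ((χ i : ℤ) : ℝ)| ≤ B) →
      AllThree S (B + D * Real.sqrt t) s
        (2 ^ n * Real.exp (15200 * n / D ^ 2 - s ^ 2 / n))) ∧
    (∀ (m n t : ℕ) (S : Fin m → Finset (Fin n)) (D s : ℝ), DegreeLE S t → 0 < D → 0 ≤ s →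
      AllThree S (t + D * Real.sqrt t) s
        (2 ^ n * Real.exp (15200 * n / D ^ 2 - s ^ 2 / n))) ∧
    (∃ C : ℝ, ∀ (m n t : ℕ) (S : Fin m → Finset (Fin n)) (D s : ℝ), 1 ≤ t → DegreeLE S t →
      0 < D → 0 ≤ s →
      AllThree S (C * (Real.sqrt t + (1 + Real.log t) ^ (3 / 2 : ℝ) *
        Real.sqrt (Real.log (1 + (min m n : ℕ)))) + D * Real.sqrt t) s
        (2 ^ n * Real.exp (15200 * n / D ^ 2 - s ^ 2 / n))) ∧
    ((∃ C : ℝ, 0 < C ∧ ∀ (n m t : ℕ) (S : Fin m → Finset (Fin n)), DegreeLE S t →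
        ∃ χ : Fin n → ℤ, (∀ i, χ i = 1 ∨ χ i = -1) ∧
          ∀ j, ((|∑ i ∈ S j, χ i| : ℤ) : ℝ) ≤ C * Real.sqrt t) ↔
      ∃ C : ℝ, 0 < C ∧ ∀ (n m t : ℕ) (S : Fin m → Finset (Fin n)), DegreeLE S t →
        ∀ D : ℝ, C ≤ D →
          AllThree S (D * Real.sqrt t) (C * n / D) (2 ^ n * Real.exp (-(n / D ^ 2)))) ∧
    ∀ t : ℕ, 1 ≤ t → ∀ D : ℝ, 1 ≤ D → ∀ N : ℕ, ∃ (n m : ℕ) (S : Fin m → Finset (Fin n)), N ≤ n ∧
      DegreeLE S t ∧
      (∀ τ : (Fin n → ℤˣ) → Fin n → ℤˣ, (∀ χ, DiscLE S (D * Real.sqrt t) (τ χ)) →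
        2 ^ n * (n / (417 * D)) ≤ ∑ χ, ((univ.filter (fun i => χ i ≠ τ χ i)).card : ℝ)) ∧
      (∀ T : Strategy n, (∀ P, IsPlay T P → ∀ c, DiscLE S (D * Real.sqrt t) (P c)) →
        ∃ P, IsPlay T P ∧ 2 ^ n * (n / (417 * D)) ≤ ∑ c, (cost T P c : ℝ)) ∧
      ∀ E : Finset (Fin n) → Finset (Fin n),
        (∀ J, Winnable S (D * Real.sqrt t) (J \ E J)) →
        2 ^ n * (n / (417 * D)) ≤ ∑ J, ((E J).card : ℝ) :=
  ⟨part1, part2, part2', part3, part4⟩

end Pool.Agent.Results.MP_e8ee11_co.RandomTurns
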